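import Pool.Agent.W312.WT.Stm

/-!
# Sorting the integer times into a chain (project WT)
-/

set_option autoImplicit false

namespace Pool.Agent.W490.WT

open Pool.Agent.W312.WT

theorem chain_aux (p n : ℕ) (y : ℕ → ℤ) (h0 : y 0 = 0) (hpos : ∀ j ≤ n, 0 ≤ y j)
    (H : ∀ u ≤ n, ∀ v ≤ n, u ≠ v → y u ≤ y v →
      (p : ℤ) * ((Finset.range (n + 1)).filter fun i => i ≠ v ∧ y i ≤ y u).card ≤ y u + y v) :
    ∀ (rest done : List ℕ) (u : ℕ), (done ++ rest).Nodup → (∀ i ∈ done ++ rest, i < n) →
      rest.Pairwise (fun i j => y (i + 1) ≤ y (j + 1)) → (u = 0 ∨ ∃ i ∈ done, u = i + 1) →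
      (∀ i ∈ done, y (i + 1) ≤ y u) → (∀ j ∈ rest, y u ≤ y (j + 1)) →
      ChnW p done.length (y u).toNat (rest.map fun j => (y (j + 1)).toNat) := by
  intro rest
  induction rest with
  | nil =>
    intro done u _ _ _ _ _ _
    exact trivial
  | cons j rest ih =>
    intro done u hnd hlt hpw hu hdone hrest
    have hjn : j < n := hlt j (by simp)
    have hun : u ≤ n := by
      rcases hu with rfl | ⟨i, hi, rfl⟩
      · omega
      · have := hlt i (by simp [hi])
        omega
    have huv : y u ≤ y (j + 1) := hrest j (by simp)
    have hyu := hpos u hun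
    have hyj := hpos (j + 1) hjn
    have hnd' := List.nodup_append.1 hnd
    have hjd : j ∉ done := by
      intro h
      exact hnd'.2.2 j h j (by simp) rfl
    have hne : u ≠ j + 1 := by
      rcases hu with rfl | ⟨i, hi, rfl⟩
      · omega
      · intro h
        have : i = j := by omega
        rw [this] at hi
        exact hjd hi
    have h1 := H u hun (j + 1) hjn hne huv
    have hcard : done.length + 1 ≤
        ((Finset.range (n + 1)).filter fun i => i ≠ j + 1 ∧ y i ≤ y u).card := by
      have e1 : (insert 0 (done.toFinset.image (fun i => i + 1))).card = done.length + 1 := by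
        rw [Finset.card_insert_of_notMem (by simp), Finset.card_image_of_injective _
          (fun a b h => by simpa using h), List.toFinset_card_of_nodup hnd'.1]
      rw [← e1]
      refine Finset.card_le_card ?_
      intro i hi
      rw [Finset.mem_insert, Finset.mem_image] at hi
      rw [Finset.mem_filter, Finset.mem_range]
      rcases hi with rfl | ⟨k, hk, rfl⟩
      · exact ⟨by omega, by omega, by rw [h0]; exact hyu⟩
      · rw [List.mem_toFinset] at hk
        have h2 := hlt k (by simp [hk])
        refine ⟨by omega, ?_, hdone k hk⟩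
        intro h
        have : k = j := by omega
        rw [this] at hk
        exact hjd hk
    rw [List.map_cons]
    refine ⟨by omega, ?_, ?_⟩
    · have h3 : (p : ℤ) * ((done.length + 1 : ℕ) : ℤ) ≤ y u + y (j + 1) := by
        refine le_trans ?_ h1
        exact mul_le_mul_of_nonneg_left (by exact_mod_cast hcard) (by positivity)
      have h4 : (((done.length + 1) * p : ℕ) : ℤ) ≤ y u + y (j + 1) := by
        rw [Nat.cast_mul, mul_comm]
        exact h3
      omega
    · have h5 := ih (done ++ [j]) (j + 1) (by simpa using hnd) (by simpa using hlt)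
        (List.pairwise_cons.1 hpw).2 (Or.inr ⟨j, by simp, rfl⟩) ?_
        (fun k hk => (List.pairwise_cons.1 hpw).1 k hk)
      · simpa using h5
      · intro i hi
        rw [List.mem_append, List.mem_singleton] at hi
        rcases hi with hi | rfl
        · exact (hdone i hi).trans huv
        · exact le_rfl

theorem proof_SLsa : Pool.Agent.W312.WT.SLsa := by
  intro p n y h0 hpos H
  let r : ℕ → ℕ → Prop := fun i j => y (i + 1) ≤ y (j + 1)
  have : DecidableRel r := fun i j => Int.decLe _ _
  have : Std.Total r := ⟨fun i j => le_total _ _⟩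
  have : IsTrans ℕ r := ⟨fun i j k h1 h2 => le_trans h1 h2⟩
  have hperm := List.perm_insertionSort r (List.range n)
  refine ⟨(List.range n).insertionSort r, hperm, ?_⟩
  have h := chain_aux p n y h0 hpos H ((List.range n).insertionSort r) [] 0
    (by simpa using (hperm.nodup_iff.2 List.nodup_range))
    (by
      intro i hi
      rw [List.nil_append] at hi
      exact List.mem_range.1 (hperm.mem_iff.1 hi))
    (List.pairwise_insertionSort r (List.range n)) (Or.inl rfl) (by simp)
    (by
      intro j hj
      rw [h0]
      refine hpos _ ?_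
      exact List.mem_range.1 (hperm.mem_iff.1 hj))
  simpa [h0] using h

end Pool.Agent.W490.WT
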